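import Pool.Agent.P8H67.TD.Stm

set_option autoImplicit false

/-!
# Project TD (helper67), package CHART: proper cocompact actions have finitely many good charts
-/

open Set Filter Topology

namespace Pool.Agent.P8H54.TD

open Pool.Agent.P8H67.TD

lemma local_chart {Y G : Type} [TopologicalSpace Y] [T2Space Y] [LocallyCompactSpace Y]
    [Group G] [MulAction G Y] [ContinuousConstSMul G Y]
    (hp : ∀ K : Set Y, IsCompact K → {g : G | ∃ y ∈ K, g • y ∈ K}.Finite) (y : Y) :
    ∃ (F : Subgroup G) (B : Set Y), Finite F ∧ IsOpen B ∧ y ∈ B ∧ (∀ g ∈ F, ∀ z ∈ B, g • z ∈ B) ∧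
      ∀ g ∉ F, ∀ z ∈ B, g • z ∉ B := by
  obtain ⟨K, hK, hKy⟩ := exists_compact_mem_nhds y
  have hyK : y ∈ K := mem_of_mem_nhds hKy
  set S : Set G := {g : G | ∃ z ∈ K, g • z ∈ K} with hS
  have hSf : S.Finite := hp K hK
  set F : Subgroup G := MulAction.stabilizer G y with hF
  have hFS : (F : Set G) ⊆ S := by
    intro g hg
    have h1 : g • y = y := hg
    exact ⟨y, hyK, by rw [h1]; exact hyK⟩
  have hFf : (F : Set G).Finite := hSf.subset hFS
  have hFfin : Finite F := hFf.to_subtype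
  have hW : ∀ g : G, ∃ W : Set Y, IsOpen W ∧ y ∈ W ∧ (g • y ≠ y → ∀ z ∈ W, g • z ∉ W) := by
    intro g
    by_cases h : g • y = y
    · exact ⟨univ, isOpen_univ, mem_univ _, fun h' => absurd h h'⟩
    · obtain ⟨U, V, hU, hV, hyU, hyV, hUV⟩ := t2_separation (Ne.symm h)
      refine ⟨U ∩ (fun z => g • z) ⁻¹' V, hU.inter (hV.preimage (continuous_const_smul g)), ⟨hyU, hyV⟩,
        fun _ z hz hz2 => ?_⟩
      exact Set.disjoint_left.1 hUV hz2.1 hz.2
  choose W hWo hWy hWd using hW
  set B0 : Set Y := interior K ∩ ⋂ g ∈ S, W g with hB0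
  have hB0o : IsOpen B0 := isOpen_interior.inter (hSf.isOpen_biInter fun g _ => hWo g)
  have hB0y : y ∈ B0 := by
    refine ⟨mem_interior_iff_mem_nhds.2 hKy, ?_⟩
    simp only [mem_iInter]
    exact fun g _ => hWy g
  set B : Set Y := ⋂ f ∈ (F : Set G), (fun z => f • z) ⁻¹' B0 with hB
  have hmem : ∀ z, z ∈ B ↔ ∀ f ∈ F, f • z ∈ B0 := by
    intro z
    rw [hB]
    simp only [mem_iInter, mem_preimage]
    rfl
  have hB1 : ∀ z ∈ B, z ∈ B0 := by
    intro z hz
    have := (hmem z).1 hz 1 F.one_mem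
    rwa [one_smul] at this
  refine ⟨F, B, hFfin, ?_, ?_, ?_, ?_⟩
  · exact hFf.isOpen_biInter fun f _ => hB0o.preimage (continuous_const_smul f)
  · rw [hmem]
    intro f hf
    have h1 : f • y = y := hf
    rw [h1]
    exact hB0y
  · intro g hg z hz
    rw [hmem] at hz ⊢
    intro f hf
    rw [← mul_smul]
    exact hz (f * g) (F.mul_mem hf hg)
  · intro g hg z hz hgz
    have h1 := hB1 z hz
    have h2 := hB1 _ hgz
    have h3 : g ∈ S := ⟨z, interior_subset h1.1, interior_subset h2.1⟩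
    have h4 : g • y ≠ y := fun h => hg h
    have h5 : z ∈ W g := by
      have := h1.2
      simp only [mem_iInter] at this
      exact this g h3
    have h6 : g • z ∈ W g := by
      have := h2.2
      simp only [mem_iInter] at this
      exact this g h3
    exact hWd g h4 z h5 h6

theorem chart : S_CHART := by
  intro Y G _ _ _ _ _ _ hp ⟨K, hK, hcov⟩
  choose F B hFf hBo hBy hBi hBd using fun y : Y => local_chart (G := G) hp y
  obtain ⟨t, -, ht⟩ := hK.elim_nhds_subcover B fun x _ => (hBo x).mem_nhds (hBy x)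
  refine ⟨t.card, fun i => F (t.equivFin.symm i), fun i => B (t.equivFin.symm i), fun i => hFf _, fun i => hBo _,
    fun i => hBi _, fun i => hBd _, fun y => ?_⟩
  obtain ⟨g, hg⟩ := hcov y
  have h1 := ht hg
  simp only [mem_iUnion] at h1
  obtain ⟨x, hx, hxB⟩ := h1
  refine ⟨t.equivFin ⟨x, hx⟩, g, ?_⟩
  simp only [Equiv.symm_apply_apply]
  exact hxB

end Pool.Agent.P8H54.TD
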