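import Pool.Agent.P8H67.TD.Stm

set_option autoImplicit false

/-!
# Project TD (helper67), package GIND: induction over the charts
-/

open Set Filter Topology

namespace Pool.Agent.P8H54.TD

open Pool.Agent.P8H67.TD
open Pool.Agent.N520.SV (Sx Chain face bdry norm1 BCob)

lemma orb_open {Y G : Type} [TopologicalSpace Y] [Group G] [MulAction G Y] [ContinuousConstSMul G Y] {W : Set Y}
    (hW : IsOpen W) : IsOpen (orb G W) := by
  have h : orb G W = ⋃ g : G, (fun y => g • y) ⁻¹' W := by
    ext y
    rw [mem_iUnion]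
    rfl
  rw [h]
  exact isOpen_iUnion fun g => hW.preimage (continuous_const_smul g)

lemma orb_inv {Y G : Type} [Group G] [MulAction G Y] (W : Set Y) : GInv G (orb G W) := by
  intro g y hy
  obtain ⟨h, hh⟩ := hy
  refine ⟨h * g⁻¹, ?_⟩
  rw [mul_smul, inv_smul_smul]
  exact hh

lemma orb_inter {Y G : Type} [Group G] [MulAction G Y] (B A : Set Y) (hA : GInv G A) :
    orb G (B ∩ A) = A ∩ orb G B := by
  ext y
  constructor
  · rintro ⟨g, hg1, hg2⟩
    refine ⟨?_, g, hg1⟩
    have := hA g⁻¹ _ hg2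
    rwa [inv_smul_smul] at this
  · rintro ⟨hy, g, hg⟩
    exact ⟨g, hg, hA g y hy⟩

lemma gac_empty {Y G : Type} [TopologicalSpace Y] [Group G] [MulAction G Y] [ContinuousConstSMul G Y] (j : ℕ) :
    GAc G j (∅ : Set Y) := by
  intro c hc _
  have h0 : c = 0 := by
    have h1 : (c : Chain (j + 1) Y) ∈ Finsupp.supported ℝ ℝ {σ : C(Sx (j + 1), Y) | range σ ⊆ (∅ : Set Y)} := hc
    rw [Finsupp.mem_supported] at h1
    have h2 : c.support = ∅ := by
      rw [Finset.eq_empty_iff_forall_notMem]
      intro σ hσ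
      have h3 : range σ ⊆ (∅ : Set Y) := h1 hσ
      exact h3 (mem_range_self (vtx 0))
    exact Finsupp.support_eq_empty.1 h2
  refine ⟨0, Submodule.zero_mem _, ?_⟩
  rw [h0, map_zero, sub_zero]
  exact Submodule.zero_mem _

theorem gind : S_GIND := by
  intro hSUB hGMV hGLOC hCHART Y G _ _ _ _ _ _ hp hc m hRA j hj
  obtain ⟨N, F, B, hFf, hBo, hBi, hBd, hcov⟩ := hCHART Y G hp hc
  let A : ℕ → Set Y := fun n => {y | ∃ i : Fin N, i.val < n ∧ y ∈ orb G (B i)}
  have hAo : ∀ n, IsOpen (A n) := by
    intro n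
    have h : A n = ⋃ i : Fin N, ⋃ _ : i.val < n, orb G (B i) := by
      ext y
      simp only [A, Set.mem_ofPred_eq, mem_iUnion, exists_prop]
    rw [h]
    exact isOpen_iUnion fun i => isOpen_iUnion fun _ => orb_open (hBo i)
  have hAi : ∀ n, GInv G (A n) := by
    intro n g y hy
    obtain ⟨i, hi, hy⟩ := hy
    exact ⟨i, hi, orb_inv (B i) g y hy⟩
  have key : ∀ n, n ≤ N → GAc G (j + 1) (A n) := by
    intro n
    induction n with
    | zero =>
      intro _
      have h : A 0 = ∅ := by
        rw [Set.eq_empty_iff_forall_notMem]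
        rintro y ⟨i, hi, -⟩
        exact Nat.not_lt_zero _ hi
      rw [h]
      exact gac_empty _
    | succ n ih =>
      intro hn
      have ih' := ih (by omega)
      let i : Fin N := ⟨n, hn⟩
      have hA1 : A (n + 1) = A n ∪ orb G (B i) := by
        ext y
        constructor
        · rintro ⟨l, hl, hy⟩
          rcases Nat.lt_or_ge l.val n with h | h
          · exact Or.inl ⟨l, h, hy⟩
          · right
            have hli : l = i := Fin.ext (by show l.val = n; omega)
            rw [← hli]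
            exact hy
        · rintro (⟨l, hl, hy⟩ | hy)
          · exact ⟨l, by omega, hy⟩
          · exact ⟨i, Nat.lt_succ_self n, hy⟩
      rw [hA1]
      have : Finite (F i) := hFf i
      have g1 : GAc G (j + 1) (orb G (B i)) :=
        hGLOC Y G (F i) (B i) (B i) (hBd i) (hBo i) subset_rfl (hBi i) (j + 1) (hRA _ (hBo i) (j + 1) (by omega))
      have g2 : GAc G j (orb G (B i ∩ A n)) :=
        hGLOC Y G (F i) (B i) (B i ∩ A n) (hBd i) ((hBo i).inter (hAo n)) inter_subset_left
          (fun g hg y hy => ⟨hBi i g hg y hy.1, hAi n g y hy.2⟩) j (hRA _ ((hBo i).inter (hAo n)) j hj)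
      rw [orb_inter (B i) (A n) (hAi n)] at g2
      exact hGMV hSUB Y G (A n) (orb G (B i)) (hAo n) (orb_open (hBo i)) (hAi n) (orb_inv _) j ih' g1 g2
  have hun : A N = univ := by
    rw [Set.eq_univ_iff_forall]
    intro y
    obtain ⟨i, hi⟩ := hcov y
    exact ⟨i, i.isLt, hi⟩
  rw [← hun]
  exact key N le_rfl

end Pool.Agent.P8H54.TD
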